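import Pool.Agent.Helper57.QZ.Stmts

set_option autoImplicit false

namespace Pool.Agent.Helper57.QZ

open MeasureTheory Set Filter Topology

namespace S29

noncomputable def Sn (y : ℕ) (x : ℝ) : Finset ℕ :=
  (Finset.Icc 2 ⌊x⌋₊).filter fun n => ∀ p ∈ n.primeFactors, y < p

lemma Nc_eq (y : ℕ) (x : ℝ) : Nc y x = ((Sn y x).card : ℝ) := rfl

lemma Sn_mono (y : ℕ) {x x' : ℝ} (h : x ≤ x') : Sn y x ⊆ Sn y x' :=
  Finset.filter_subset_filter _ (Finset.Icc_subset_Icc le_rfl (Nat.floor_mono h))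

lemma Nc_mono (y : ℕ) : Monotone (Nc y) := fun x x' h => by
  rw [Nc_eq, Nc_eq]
  exact_mod_cast Finset.card_le_card (Sn_mono y h)

lemma Nc_nonneg (y : ℕ) (x : ℝ) : 0 ≤ Nc y x := Nat.cast_nonneg _

lemma Nc_le (y : ℕ) {x : ℝ} (hx : 0 ≤ x) : Nc y x ≤ x := by
  rw [Nc_eq]
  have h1 : (Sn y x).card ≤ ⌊x⌋₊ := by
    refine (Finset.card_filter_le _ _).trans ?_
    rw [Nat.card_Icc]
    omega
  calc ((Sn y x).card : ℝ) ≤ (⌊x⌋₊ : ℝ) := by exact_mod_cast h1
    _ ≤ x := Nat.floor_le hx

noncomputable def Ai (y : ℕ) (x : ℝ) : ℝ := ∫ u in (0:ℝ)..x, Nc y u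

lemma g2_eq (y : ℕ) (x : ℝ) : g2 y x = Nc y x - 2 / x * Ai y x := rfl

lemma Nc_int (y : ℕ) (a b : ℝ) : IntervalIntegrable (Nc y) volume a b :=
  (Nc_mono y).intervalIntegrable

lemma Ai_diff (y : ℕ) {x x' : ℝ} (hx : 0 ≤ x) (h : x ≤ x') :
    0 ≤ Ai y x' - Ai y x ∧ Ai y x' - Ai y x ≤ (x' - x) * x' := by
  have h1 : Ai y x' - Ai y x = ∫ u in x..x', Nc y u :=
    intervalIntegral.integral_interval_sub_left (Nc_int _ _ _) (Nc_int _ _ _)
  rw [h1]
  constructor
  · exact intervalIntegral.integral_nonneg h (fun u _ => Nc_nonneg y u)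
  · calc ∫ u in x..x', Nc y u ≤ ∫ _u in x..x', x' :=
          intervalIntegral.integral_mono_on h (Nc_int _ _ _) (by simp)
            (fun u hu => (Nc_mono y hu.2).trans (Nc_le y (hx.trans h)))
      _ = (x' - x) * x' := by simp

lemma Ai_zero (y : ℕ) : Ai y 0 = 0 := by simp [Ai]

lemma A_diff (y : ℕ) {x x' : ℝ} (hx : 0 < x) (h : x ≤ x') :
    |2 / x' * Ai y x' - 2 / x * Ai y x| ≤ 2 * (x' - x) := by
  have hx' : 0 < x' := hx.trans_le h
  obtain ⟨a1, a2⟩ := Ai_diff y hx.le h
  obtain ⟨b1, b2⟩ := Ai_diff y le_rfl hx.le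
  rw [Ai_zero, sub_zero] at b1 b2
  rw [sub_zero] at b2
  have e : 2 / x' * Ai y x' - 2 / x * Ai y x =
      2 * (Ai y x' - Ai y x) / x' - 2 * Ai y x * (x' - x) / (x * x') := by
    field_simp
    ring
  rw [e]
  have c1 : 0 ≤ 2 * (Ai y x' - Ai y x) / x' := by positivity
  have c2 : 2 * (Ai y x' - Ai y x) / x' ≤ 2 * (x' - x) := by
    rw [div_le_iff₀ hx']
    nlinarith
  have hd : 0 ≤ x' - x := sub_nonneg.2 h
  have c3 : 0 ≤ 2 * Ai y x * (x' - x) / (x * x') := by positivity
  have c4 : 2 * Ai y x * (x' - x) / (x * x') ≤ 2 * (x' - x) := by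
    rw [div_le_iff₀ (by positivity)]
    have : Ai y x ≤ x * x' := b2.trans (by nlinarith)
    nlinarith [mul_le_mul_of_nonneg_left this hd]
  rw [abs_le]
  constructor <;> linarith

lemma exp_sub_one_le {h : ℝ} (h0 : 0 ≤ h) (h1 : h ≤ 1 / 2) : Real.exp h - 1 ≤ 2 * h := by
  have e1 : Real.exp h * (1 - h) ≤ 1 := by
    have := Real.add_one_le_exp (-h)
    calc Real.exp h * (1 - h) ≤ Real.exp h * Real.exp (-h) :=
          mul_le_mul_of_nonneg_left (by linarith) (Real.exp_pos _).le
      _ = 1 := by rw [← Real.exp_add]; simp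
  have e2 : 1 ≤ (1 + 2 * h) * (1 - h) := by nlinarith
  have e3 : Real.exp h ≤ 1 + 2 * h :=
    le_of_mul_le_mul_right (e1.trans e2) (by linarith)
  linarith

lemma N_sq (y : ℕ) {h L u : ℝ} (h0 : 0 < h) (h1 : h ≤ 1 / 2) (hL : Real.exp L = h⁻¹)
    (hu : u ≤ L) :
    (Nc y (Real.exp (u + h)) - Nc y (Real.exp u)) ^ 2 ≤
      3 * ∑ n ∈ Sn y (Real.exp (L + h)),
        (Ico (Real.log n - h) (Real.log n)).indicator (fun _ => (1 : ℝ)) u := by
  classical
  set D : Finset ℕ := Sn y (Real.exp (u + h)) \ Sn y (Real.exp u) with hD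
  have hle : Real.exp u ≤ Real.exp (u + h) := Real.exp_le_exp.2 (by linarith)
  have hcard : Nc y (Real.exp (u + h)) - Nc y (Real.exp u) = (D.card : ℝ) := by
    rw [Nc_eq, Nc_eq, hD, Finset.card_sdiff_of_subset (Sn_mono y hle),
      Nat.cast_sub (Finset.card_le_card (Sn_mono y hle))]
  -- the elements of `D`
  have hmem : ∀ n ∈ D, 2 ≤ n ∧ Real.exp u < n ∧ (n : ℝ) ≤ Real.exp (u + h) ∧
      ⌊Real.exp u⌋₊ < n ∧ n ≤ ⌊Real.exp (u + h)⌋₊ := by
    intro n hn
    obtain ⟨n1, n2⟩ := Finset.mem_sdiff.1 hn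
    obtain ⟨n3, n4⟩ := Finset.mem_filter.1 n1
    obtain ⟨n5, n6⟩ := Finset.mem_Icc.1 n3
    have n7 : ⌊Real.exp u⌋₊ < n := by
      by_contra hc
      exact n2 (Finset.mem_filter.2 ⟨Finset.mem_Icc.2 ⟨n5, not_lt.1 hc⟩, n4⟩)
    exact ⟨n5, (Nat.floor_lt (Real.exp_pos _).le).1 n7, (Nat.le_floor_iff (Real.exp_pos _).le).1 n6,
      n7, n6⟩
  have hc3 : (D.card : ℝ) ≤ 3 := by
    have c1 : D.card ≤ ⌊Real.exp (u + h)⌋₊ - ⌊Real.exp u⌋₊ := by
      rw [← Nat.card_Ioc]
      apply Finset.card_le_card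
      intro n hn
      obtain ⟨-, -, -, n7, n8⟩ := hmem n hn
      exact Finset.mem_Ioc.2 ⟨n7, n8⟩
    have c2 : ⌊Real.exp u⌋₊ ≤ ⌊Real.exp (u + h)⌋₊ := Nat.floor_mono hle
    have c3 : (D.card : ℝ) ≤ (⌊Real.exp (u + h)⌋₊ : ℝ) - (⌊Real.exp u⌋₊ : ℝ) := by
      rw [← Nat.cast_sub c2]
      exact_mod_cast c1
    have c4 : (⌊Real.exp (u + h)⌋₊ : ℝ) ≤ Real.exp (u + h) := Nat.floor_le (Real.exp_pos _).le
    have c5 : Real.exp u < ⌊Real.exp u⌋₊ + 1 := Nat.lt_floor_add_one _
    have c6 : Real.exp (u + h) - Real.exp u ≤ 2 := by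
      have d1 : Real.exp (u + h) - Real.exp u = Real.exp u * (Real.exp h - 1) := by
        rw [Real.exp_add]; ring
      have d2 : Real.exp u ≤ h⁻¹ := by
        rw [← hL]
        exact Real.exp_le_exp.2 hu
      have d3 := exp_sub_one_le h0.le h1
      have d4 : 0 ≤ Real.exp h - 1 := by
        have := Real.add_one_le_exp h
        linarith
      calc Real.exp (u + h) - Real.exp u = Real.exp u * (Real.exp h - 1) := d1
        _ ≤ h⁻¹ * (2 * h) := mul_le_mul d2 d3 d4 (by positivity)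
        _ = 2 := by field_simp
    linarith
  have hsum : (D.card : ℝ) ≤ ∑ n ∈ Sn y (Real.exp (L + h)),
        (Ico (Real.log n - h) (Real.log n)).indicator (fun _ => (1 : ℝ)) u := by
    have s1 : (D.card : ℝ) = ∑ n ∈ D, (1 : ℝ) := by simp
    rw [s1]
    have s2 : D ⊆ Sn y (Real.exp (L + h)) := by
      refine Finset.sdiff_subset.trans (Sn_mono y ?_)
      exact Real.exp_le_exp.2 (by linarith)
    refine le_trans ?_ (Finset.sum_le_sum_of_subset_of_nonneg s2 (fun n _ _ =>
      indicator_nonneg (fun _ _ => zero_le_one) _))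
    apply Finset.sum_le_sum
    intro n hn
    obtain ⟨n1, n2, n3, -, -⟩ := hmem n hn
    have hn0 : (0 : ℝ) < n := (Real.exp_pos _).trans n2
    rw [indicator_of_mem]
    constructor
    · have := (Real.log_le_iff_le_exp hn0).2 n3
      linarith
    · exact (Real.lt_log_iff_exp_lt hn0).2 n2
  rw [hcard]
  have hD0 : (0 : ℝ) ≤ D.card := Nat.cast_nonneg _
  nlinarith

/-- `n ^ (-(1 + a))` -/
noncomputable def wq (a : ℝ) (n : ℕ) : ℝ := Real.exp (-(1 + a) * Real.log n)
noncomputable def Vq (a : ℝ) (n : ℕ) : ℝ := Real.exp (-a * Real.log n)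

lemma tele {a : ℝ} (ha : 0 < a) {m : ℕ} (hm : 1 ≤ m) :
    wq a (m + 1) ≤ (Vq a m - Vq a (m + 1)) / a := by
  have hm0 : (0 : ℝ) < m := by exact_mod_cast hm
  have hm1 : (0 : ℝ) < (m : ℝ) + 1 := by linarith
  have h1 : Real.log m ≤ Real.log ((m : ℝ) + 1) - 1 / ((m : ℝ) + 1) := by
    have e := Real.log_le_sub_one_of_pos (x := (m : ℝ) / ((m : ℝ) + 1)) (by positivity)
    rw [Real.log_div hm0.ne' hm1.ne'] at e
    have e2 : (m : ℝ) / ((m : ℝ) + 1) - 1 = -(1 / ((m : ℝ) + 1)) := by
      field_simp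
      ring
    rw [e2] at e
    linarith
  have h2 : Vq a (m + 1) * (1 + a / ((m : ℝ) + 1)) ≤ Vq a m := by
    have e1 : Vq a (m + 1) * Real.exp (a / ((m : ℝ) + 1)) ≤ Vq a m := by
      unfold Vq
      rw [← Real.exp_add]
      apply Real.exp_le_exp.2
      push_cast
      have := mul_le_mul_of_nonneg_left h1 ha.le
      have e3 : a / ((m : ℝ) + 1) = a * (1 / ((m : ℝ) + 1)) := by ring
      rw [e3]
      nlinarith
    have e2 := Real.add_one_le_exp (a / ((m : ℝ) + 1))
    have e3 : 0 < Vq a (m + 1) := Real.exp_pos _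
    nlinarith [mul_le_mul_of_nonneg_left e2 e3.le]
  have h3 : wq a (m + 1) = Vq a (m + 1) / ((m : ℝ) + 1) := by
    unfold wq Vq
    rw [eq_div_iff hm1.ne']
    conv_lhs => rw [← Real.exp_log hm1]
    rw [← Real.exp_add]
    push_cast
    congr 1
    ring
  rw [h3, le_div_iff₀ ha]
  have h4 : Vq a (m + 1) / ((m : ℝ) + 1) * a = Vq a (m + 1) * (a / ((m : ℝ) + 1)) := by ring
  rw [h4]
  linarith

lemma tele_sum {a : ℝ} (ha : 0 < a) {y : ℕ} (hy : 1 ≤ y) (k : ℕ) :
    ∑ i ∈ Finset.range k, wq a (y + 1 + i) ≤ (Vq a y - Vq a (y + k)) / a := by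
  induction k with
  | zero => simp
  | succ k ih =>
    rw [Finset.sum_range_succ]
    have h := tele ha (m := y + k) (by omega)
    have e1 : y + 1 + k = y + k + 1 := by omega
    have e2 : y + (k + 1) = y + k + 1 := by omega
    rw [e1, e2]
    have e3 : (Vq a y - Vq a (y + k + 1)) / a =
        (Vq a y - Vq a (y + k)) / a + (Vq a (y + k) - Vq a (y + k + 1)) / a := by ring
    rw [e3]
    exact add_le_add ih h

lemma sum_Sn {a : ℝ} (ha : 0 < a) {y : ℕ} (hy : 1 ≤ y) (X : ℝ) :
    ∑ n ∈ Sn y X, wq a n ≤ Vq a y / a := by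
  have h1 : Sn y X ⊆ Finset.Ico (y + 1) (y + 1 + ⌊X⌋₊) := by
    intro n hn
    obtain ⟨n1, n2⟩ := Finset.mem_filter.1 hn
    obtain ⟨n3, n4⟩ := Finset.mem_Icc.1 n1
    have n5 : y < n.minFac := n2 _ (Nat.mem_primeFactors.2
      ⟨Nat.minFac_prime (by omega), Nat.minFac_dvd n, by omega⟩)
    have n6 : n.minFac ≤ n := Nat.minFac_le (by omega)
    exact Finset.mem_Ico.2 ⟨by omega, by omega⟩
  refine (Finset.sum_le_sum_of_subset_of_nonneg h1 (fun n _ _ => (Real.exp_pos _).le)).trans ?_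
  rw [Finset.sum_Ico_eq_sum_range]
  have e : y + 1 + ⌊X⌋₊ - (y + 1) = ⌊X⌋₊ := by omega
  rw [e]
  refine (tele_sum ha hy _).trans ?_
  apply div_le_div_of_nonneg_right _ ha.le
  have : 0 < Vq a (y + ⌊X⌋₊) := Real.exp_pos _
  linarith

lemma wq_bd {a h : ℝ} (ha0 : 0 < a) (ha1 : a < 1) (h1 : h ≤ 1 / 2) (n : ℕ) {u : ℝ}
    (hu : u ∈ Ico (Real.log n - h) (Real.log n)) :
    6 * Real.exp (-(1 + a) * u) ≤ 18 * wq a n := by
  have f1 : Real.exp (-(1 + a) * u) ≤ Real.exp 1 * wq a n := by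
    unfold wq
    rw [← Real.exp_add]
    apply Real.exp_le_exp.2
    have g1 : Real.log n - u ≤ 1 / 2 := by linarith [hu.1]
    have g2 : 0 ≤ Real.log n - u := by linarith [hu.2]
    have g3 : (1 + a) * (Real.log n - u) ≤ 2 * (1 / 2) :=
      mul_le_mul (by linarith) g1 g2 (by norm_num)
    linarith
  have f2 := Real.exp_one_lt_d9
  have f3 : 0 < wq a n := Real.exp_pos _
  have f4 : Real.exp 1 * wq a n ≤ 3 * wq a n := mul_le_mul_of_nonneg_right (by linarith) f3.le
  linarith

lemma int_bd {a h : ℝ} (ha0 : 0 < a) (ha1 : a < 1) (h0 : 0 < h) (h1 : h ≤ 1 / 2) (n : ℕ) :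
    ∫ u in Ico (Real.log n - h) (Real.log n), 6 * Real.exp (-(1 + a) * u) ≤
      18 * h * wq a n := by
  have d1 : ∫ u in Ico (Real.log n - h) (Real.log n), 6 * Real.exp (-(1 + a) * u) ≤
      ∫ _u in Ico (Real.log n - h) (Real.log n), 18 * wq a n := by
    apply setIntegral_mono_on _ _ measurableSet_Ico
    · intro u hu
      exact wq_bd ha0 ha1 h1 n hu
    · have : IntegrableOn (fun u => 6 * Real.exp (-(1 + a) * u))
          (Icc (Real.log n - h) (Real.log n)) := by
        apply Continuous.integrableOn_Icc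
        fun_prop
      exact this.mono_set Ico_subset_Icc_self
    · exact integrableOn_const (by simp)
  refine d1.trans (le_of_eq ?_)
  rw [setIntegral_const, Real.volume_real_Ico_of_le (by linarith), smul_eq_mul]
  ring

end S29

open S29 in
theorem dg_of (hBG : ST_BG) : ST_DG := by
  intro ε hε
  obtain ⟨hε0, hε1⟩ := hε
  refine ⟨1 + 9 / ε, ?_⟩
  intro y hy
  obtain ⟨⟨B, hB⟩, hmeas, hzero⟩ := hBG y
  have hB0 : 0 ≤ B := (abs_nonneg _).trans (hB 1 one_pos)
  set a : ℝ := 2 * ε with ha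
  have ha0 : 0 < a := by positivity
  have ha1 : a < 1 := by linarith
  set V : ℝ := Vq a y with hV
  have hV0 : 0 < V := Real.exp_pos _
  set K : ℝ := 4 * B ^ 2 + 32 / (1 - a) + 1 with hK
  have h1a : 0 < 1 - a := by linarith
  have hK0 : 0 < K := by positivity
  refine ⟨min (1 / 2) (Real.exp (Real.log (V / K) / a)), lt_min (by norm_num) (Real.exp_pos _), ?_⟩
  rintro h ⟨h0, hh⟩ σ ⟨hσ, -⟩
  have h1 : h ≤ 1 / 2 := hh.trans (min_le_left _ _)
  have h2 : h ≤ Real.exp (Real.log (V / K) / a) := hh.trans (min_le_right _ _)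
  set L : ℝ := -Real.log h with hLdef
  have hL : Real.exp L = h⁻¹ := by rw [hLdef, Real.exp_neg, Real.exp_log h0]
  set T : ℝ := Real.exp (a * Real.log h) with hT
  have hT0 : 0 < T := Real.exp_pos _
  have hTK : T * K ≤ V := by
    have e1 : Real.log h ≤ Real.log (V / K) / a := (Real.log_le_iff_le_exp h0).2 h2
    have e2 : a * Real.log h ≤ Real.log (V / K) := by
      rw [le_div_iff₀ ha0] at e1
      linarith
    have e3 : T ≤ V / K := by
      rw [hT, ← Real.exp_log (div_pos hV0 hK0)]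
      exact Real.exp_le_exp.2 e2
    rwa [le_div_iff₀ hK0] at e3
  -- the function and its majorant
  set Δ : ℝ → ℝ := fun u => g2 y (Real.exp (u + h)) - g2 y (Real.exp u) with hΔ
  set S := Sn y (Real.exp (L + h)) with hS
  set F1 : ℝ → ℝ := (Ioi L).indicator (fun u => 4 * B ^ 2 * Real.exp (-(1 + a) * u)) with hF1
  set F2 : ℝ → ℝ := (Iic L).indicator (fun u => 32 * h ^ 2 * Real.exp ((1 - a) * u)) with hF2
  set F3 : ℕ → ℝ → ℝ := fun n => (Ico (Real.log n - h) (Real.log n)).indicator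
    (fun u => 6 * Real.exp (-(1 + a) * u)) with hF3
  have hF1n : ∀ u, 0 ≤ F1 u := fun u => indicator_nonneg (fun _ _ => by positivity) _
  have hF2n : ∀ u, 0 ≤ F2 u := fun u => indicator_nonneg (fun _ _ => by positivity) _
  have hF3n : ∀ n u, 0 ≤ F3 n u := fun n u => indicator_nonneg (fun _ _ => by positivity) _
  have hΔB : ∀ u, |Δ u| ≤ 2 * B := by
    intro u
    have e1 := hB _ (Real.exp_pos (u + h))
    have e2 := hB _ (Real.exp_pos u)
    calc |Δ u| ≤ |g2 y (Real.exp (u + h))| + |g2 y (Real.exp u)| := abs_sub _ _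
      _ ≤ 2 * B := by linarith
  have hΔ0 : ∀ u, u ≤ 0 → Δ u = 0 := by
    intro u hu
    have e0 : Real.exp (1 / 2 : ℝ) < 2 := by
      have := Real.exp_one_lt_d9
      have e : Real.exp (1 / 2 : ℝ) * Real.exp (1 / 2 : ℝ) = Real.exp 1 := by
        rw [← Real.exp_add]; norm_num
      have := Real.exp_pos (1 / 2 : ℝ)
      nlinarith
    have e1 : Real.exp (u + h) < 2 := lt_of_le_of_lt (Real.exp_le_exp.2 (by linarith)) e0
    have e2 : Real.exp u < 2 := lt_of_le_of_lt (Real.exp_le_exp.2 (by linarith)) e0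
    simp only [hΔ]
    rw [hzero _ (Real.exp_pos _) e1, hzero _ (Real.exp_pos _) e2, sub_zero]
  have key : ∀ u, (Δ u * Real.exp (-(σ * u))) ^ 2 ≤ F1 u + F2 u + ∑ n ∈ S, F3 n u := by
    intro u
    have hsn : 0 ≤ ∑ n ∈ S, F3 n u := Finset.sum_nonneg (fun n _ => hF3n n u)
    rcases le_or_gt u 0 with hu | hu
    · rw [hΔ0 u hu, zero_mul]
      have := hF1n u
      have := hF2n u
      simp only [ne_eq, OfNat.ofNat_ne_zero, not_false_eq_true, zero_pow]
      linarith
    · have hE : Real.exp (-(σ * u)) ^ 2 ≤ Real.exp (-(1 + a) * u) := by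
        rw [sq, ← Real.exp_add]
        apply Real.exp_le_exp.2
        have : (1 / 2 + ε) * u ≤ σ * u := mul_le_mul_of_nonneg_right hσ hu.le
        rw [ha]
        linarith
      have hEp : 0 < Real.exp (-(1 + a) * u) := Real.exp_pos _
      rw [mul_pow]
      rcases lt_or_ge L u with hLu | hLu
      · have e1 : F1 u = 4 * B ^ 2 * Real.exp (-(1 + a) * u) := by
          rw [hF1, indicator_of_mem (show u ∈ Ioi L from hLu)]
        have e2 : Δ u ^ 2 ≤ 4 * B ^ 2 := by
          have := hΔB u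
          rw [← sq_abs]
          nlinarith [abs_nonneg (Δ u)]
        have e3 : Δ u ^ 2 * Real.exp (-(σ * u)) ^ 2 ≤ 4 * B ^ 2 * Real.exp (-(1 + a) * u) :=
          mul_le_mul e2 hE (sq_nonneg _) (by positivity)
        have := hF2n u
        linarith
      · have e1 : F2 u = 32 * h ^ 2 * Real.exp ((1 - a) * u) := by
          rw [hF2, indicator_of_mem (show u ∈ Iic L from hLu)]
        have e2 : ∑ n ∈ S, F3 n u = 6 * (∑ n ∈ S,
            (Ico (Real.log n - h) (Real.log n)).indicator (fun _ => (1 : ℝ)) u) *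
              Real.exp (-(1 + a) * u) := by
          rw [Finset.mul_sum, Finset.sum_mul]
          apply Finset.sum_congr rfl
          intro n _
          simp only [hF3]
          by_cases hn : u ∈ Ico (Real.log n - h) (Real.log n)
          · rw [indicator_of_mem hn, indicator_of_mem hn]
            ring
          · rw [indicator_of_notMem hn, indicator_of_notMem hn]
            ring
        have e3 := N_sq y h0 h1 hL hLu
        have hxx : Real.exp u ≤ Real.exp (u + h) := Real.exp_le_exp.2 (by linarith)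
        have e4 := A_diff y (Real.exp_pos u) hxx
        set P : ℝ := Nc y (Real.exp (u + h)) - Nc y (Real.exp u) with hP
        set Q : ℝ := 2 / Real.exp (u + h) * Ai y (Real.exp (u + h)) -
          2 / Real.exp u * Ai y (Real.exp u) with hQ
        have e5 : Δ u = P - Q := by
          simp only [hΔ, g2_eq, hP, hQ]
          ring
        have e6 : Δ u ^ 2 ≤ 2 * P ^ 2 + 2 * Q ^ 2 := by
          rw [e5]
          nlinarith [sq_nonneg (P + Q)]
        have e7 : Real.exp (u + h) - Real.exp u ≤ 2 * h * Real.exp u := by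
          have d1 : Real.exp (u + h) - Real.exp u = Real.exp u * (Real.exp h - 1) := by
            rw [Real.exp_add]; ring
          rw [d1]
          have := mul_le_mul_of_nonneg_left (exp_sub_one_le h0.le h1) (Real.exp_pos u).le
          linarith
        have e8 : Q ^ 2 ≤ 16 * h ^ 2 * Real.exp u ^ 2 := by
          have d1 : |Q| ≤ 4 * h * Real.exp u := by linarith
          rw [← sq_abs]
          have d2 : 0 ≤ 4 * h * Real.exp u := by positivity
          calc |Q| ^ 2 ≤ (4 * h * Real.exp u) ^ 2 := by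
                exact pow_le_pow_left₀ (abs_nonneg _) d1 2
            _ = 16 * h ^ 2 * Real.exp u ^ 2 := by ring
        have e9 : Real.exp u ^ 2 * Real.exp (-(1 + a) * u) = Real.exp ((1 - a) * u) := by
          rw [sq, ← Real.exp_add, ← Real.exp_add]
          congr 1
          ring
        set Z : ℝ := ∑ n ∈ S, (Ico (Real.log n - h) (Real.log n)).indicator
          (fun _ => (1 : ℝ)) u with hZ
        have e10 : Δ u ^ 2 * Real.exp (-(σ * u)) ^ 2 ≤
            (6 * Z + 32 * h ^ 2 * Real.exp u ^ 2) * Real.exp (-(1 + a) * u) := by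
          apply mul_le_mul _ hE (sq_nonneg _)
          · have : 0 ≤ Z := Finset.sum_nonneg (fun n _ =>
              indicator_nonneg (fun _ _ => zero_le_one) _)
            positivity
          · linarith
        have e11 : (6 * Z + 32 * h ^ 2 * Real.exp u ^ 2) * Real.exp (-(1 + a) * u) =
            6 * Z * Real.exp (-(1 + a) * u) + 32 * h ^ 2 * Real.exp ((1 - a) * u) := by
          rw [← e9]
          ring
        have := hF1n u
        rw [e1, e2]
        linarith
  -- integrability of the majorant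
  have hneg : -(1 + a) < 0 := by linarith
  have i1 : Integrable F1 := by
    rw [hF1, integrable_indicator_iff measurableSet_Ioi]
    exact (integrableOn_exp_mul_Ioi hneg L).const_mul _
  have i2 : Integrable F2 := by
    rw [hF2, integrable_indicator_iff measurableSet_Iic]
    exact (integrableOn_exp_mul_Iic h1a L).const_mul _
  have i3 : ∀ n, Integrable (F3 n) := by
    intro n
    simp only [hF3]
    rw [integrable_indicator_iff measurableSet_Ico]
    have : IntegrableOn (fun u => 6 * Real.exp (-(1 + a) * u))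
        (Icc (Real.log n - h) (Real.log n)) := by
      apply Continuous.integrableOn_Icc
      fun_prop
    exact this.mono_set Ico_subset_Icc_self
  have i3s : Integrable (fun u => ∑ n ∈ S, F3 n u) := integrable_finsetSum _ (fun n _ => i3 n)
  have iF : Integrable (fun u => F1 u + F2 u + ∑ n ∈ S, F3 n u) := (i1.add i2).add i3s
  have hms : Measurable (fun u : ℝ => Δ u * Real.exp (-(σ * u))) := by
    have m1 : Measurable (fun u : ℝ => g2 y (Real.exp (u + h))) :=
      hmeas.comp (measurable_id.add_const h)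
    exact (m1.sub hmeas).mul (by fun_prop)
  have iq : Integrable (fun u : ℝ => (Δ u * Real.exp (-(σ * u))) ^ 2) := by
    refine iF.mono' (hms.pow_const 2).aestronglyMeasurable (Eventually.of_forall fun u => ?_)
    rw [Real.norm_of_nonneg (sq_nonneg _)]
    exact key u
  refine ⟨?_, iq, ?_⟩
  · -- integrability
    have iG : Integrable ((Ioi (0 : ℝ)).indicator (fun u => 2 * B * Real.exp (-(1 / 2) * u))) := by
      rw [integrable_indicator_iff measurableSet_Ioi]
      exact (integrableOn_exp_mul_Ioi (by norm_num) 0).const_mul _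
    refine iG.mono' hms.aestronglyMeasurable (Eventually.of_forall fun u => ?_)
    rcases le_or_gt u 0 with hu | hu
    · have e : (g2 y (Real.exp (u + h)) - g2 y (Real.exp u)) = 0 := hΔ0 u hu
      rw [indicator_of_notMem (show u ∉ Ioi (0 : ℝ) from not_lt.2 hu)]
      simp only [e, zero_mul, norm_zero, le_refl]
    · rw [indicator_of_mem (show u ∈ Ioi (0 : ℝ) from hu), norm_mul, Real.norm_eq_abs,
        Real.norm_eq_abs, abs_of_pos (Real.exp_pos _)]
      apply mul_le_mul (hΔB u) _ (Real.exp_pos _).le (by positivity)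
      apply Real.exp_le_exp.2
      have : 1 / 2 * u ≤ σ * u := mul_le_mul_of_nonneg_right (by linarith) hu.le
      linarith
  · -- the bound
    have b0 : ∫ u : ℝ, (Δ u * Real.exp (-(σ * u))) ^ 2 ≤
        ∫ u : ℝ, (F1 u + F2 u + ∑ n ∈ S, F3 n u) := integral_mono iq iF key
    have b1 : ∫ u : ℝ, F1 u ≤ 4 * B ^ 2 * (h * T) := by
      rw [hF1, integral_indicator measurableSet_Ioi, integral_const_mul,
        integral_exp_mul_Ioi hneg]
      apply mul_le_mul_of_nonneg_left _ (by positivity)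
      have e1 : Real.exp (-(1 + a) * L) = h * T := by
        rw [hLdef, hT]
        conv_rhs => rw [← Real.exp_log h0]
        rw [← Real.exp_add, Real.exp_log h0]
        congr 1
        ring
      rw [e1, neg_div_neg_eq]
      exact div_le_self (by positivity) (by linarith)
    have b2 : ∫ u : ℝ, F2 u = 32 / (1 - a) * (h * T) := by
      rw [hF2, integral_indicator measurableSet_Iic, integral_const_mul,
        integral_exp_mul_Iic h1a]
      have e1 : h * Real.exp ((1 - a) * L) = T := by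
        rw [hLdef, hT]
        conv_lhs => rw [← Real.exp_log h0]
        rw [← Real.exp_add, Real.exp_log h0]
        congr 1
        ring
      rw [← e1]
      field_simp
    have b3 : ∫ u : ℝ, (∑ n ∈ S, F3 n u) ≤ 18 * h * (V / a) := by
      rw [integral_finsetSum _ (fun n _ => i3 n)]
      have c1 : ∀ n ∈ S, ∫ u : ℝ, F3 n u ≤ 18 * h * wq a n := by
        intro n _
        simp only [hF3]
        rw [integral_indicator measurableSet_Ico]
        exact int_bd ha0 ha1 h0 h1 n
      refine (Finset.sum_le_sum c1).trans ?_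
      rw [← Finset.mul_sum]
      exact mul_le_mul_of_nonneg_left (sum_Sn ha0 hy _) (by positivity)
    have b4 : ∫ u : ℝ, (F1 u + F2 u + ∑ n ∈ S, F3 n u) =
        (∫ u : ℝ, F1 u) + (∫ u : ℝ, F2 u) + ∫ u : ℝ, (∑ n ∈ S, F3 n u) := by
      have q1 : ∫ u : ℝ, (F1 u + F2 u + ∑ n ∈ S, F3 n u) =
          (∫ u : ℝ, (F1 u + F2 u)) + ∫ u : ℝ, (∑ n ∈ S, F3 n u) := integral_add (i1.add i2) i3s
      have q2 : ∫ u : ℝ, (F1 u + F2 u) = (∫ u : ℝ, F1 u) + (∫ u : ℝ, F2 u) := integral_add i1 i2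
      rw [q1, q2]
    have hVy : (y : ℝ) ^ (-(2 * ε)) = V := by
      have hy0 : (0 : ℝ) < y := by exact_mod_cast hy
      rw [Real.rpow_def_of_pos hy0, hV, Vq]
      congr 1
      rw [ha]
      ring
    rw [hVy]
    have hfin : 4 * B ^ 2 * (h * T) + 32 / (1 - a) * (h * T) ≤ h * V := by
      have : h * (T * (4 * B ^ 2 + 32 / (1 - a))) ≤ h * V := by
        apply mul_le_mul_of_nonneg_left _ h0.le
        refine le_trans ?_ hTK
        apply mul_le_mul_of_nonneg_left _ hT0.le
        rw [hK]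
        linarith
      linarith
    have hlast : 18 * h * (V / a) = 9 / ε * h * V := by
      rw [ha]
      field_simp
      ring
    calc ∫ u : ℝ, (Δ u * Real.exp (-(σ * u))) ^ 2 ≤ 4 * B ^ 2 * (h * T) +
          32 / (1 - a) * (h * T) + 18 * h * (V / a) := by
          refine b0.trans ?_
          rw [b4, b2]
          linarith
      _ ≤ h * V + 9 / ε * h * V := by rw [hlast]; linarith
      _ = (1 + 9 / ε) * h * V := by ring

end Pool.Agent.Helper57.QZ
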